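import Pool.Agent.U393.IT.Var
import Pool.Agent.U393.UT.Neg
import Pool.Agent.U192.PX.Main
import Pool.Agent.U192.PY.Sup

/-!
Fibrations which factor through a factor of a product.
-/

set_option autoImplicit false
set_option linter.overlappingInstances false
set_option linter.unusedSectionVars false
set_option maxHeartbeats 4000000

open FF Pool.Agent.W602.GT
open Pool.Agent.Y174 (PairSec PairKod)
open Pool.Agent.U393.IT (kd_iff rest desc up chain2 iit_triv kd_point easy_add)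
open Pool.Agent.U192.PX (SecT)

namespace Pool.Agent.U192.PZ

/-- transport -/
theorem pk_equiv {K K' : Type} [Field K] [Field K'] [Algebra ℂ K] [Algebra ℂ K']
    (e : K ≃ₐ[ℂ] K') [h0 : Algebra.EssFiniteType ℂ K] {n A : ℕ} (hn : Algebra.trdeg ℂ K = n)
    (h : PairKod ℂ K n (fun _ => 0) A) : PairKod ℂ K' n (fun _ => 0) A :=
  Pool.Agent.Y174.pair_equiv e h0 hn _ _ (fun _ => le_rfl) (fun _ => rfl) h

/-- products with a variety of general type -/
theorem kod_prod_gt {F : Type} [Field F] [Algebra ℂ F] [Algebra.EssFiniteType ℂ F]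
    {F₁ F₂ : IntermediateField ℂ F} (h12 : F₁ ⊔ F₂ = ⊤) {s r b : ℕ}
    (h1 : Algebra.trdeg ℂ F₁ = s) (h2 : Algebra.trdeg ℂ F₂ = r)
    (hF : Algebra.trdeg ℂ F = (s + r : ℕ)) (hgt : PairKod ℂ F₁ s (fun _ => 0) s)
    (hb : PairKod ℂ F₂ r (fun _ => 0) b) : PairKod ℂ F (s + r) (fun _ => 0) (s + b) := by
  classical
  have e1 : Algebra.EssFiniteType ℂ F₁ := Pool.Agent.N999.SX.ess_any F₁
  have e2 : Algebra.EssFiniteType ℂ F₂ := Pool.Agent.N999.SX.ess_any F₂
  obtain ⟨m, hm, θ, hθ, D, hD, hind⟩ := hgt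
  refine Pool.Agent.U192.PX.kod_prod (K := F) (L := F) (E := F₁) (U := F₁) (F := F₂) h12 le_rfl
    h1 h1 h2 hF ?_ (Y := ∅) ?_ (δ := fun _ => 0) (δF := fun _ => 0) (fun _ => le_rfl)
    (fun _ _ => zero_le_one) (Pool.Agent.U393.UT.ge_zero F₁ F₂) hm (α := θ) (fun j => ?_) (hD 0)
    hind hb
  · rw [eq_top_iff]
    intro z _
    exact (IntermediateField.adjoin F (F₁ : Set F)).algebraMap_mem z
  · intro z _
    have h : (1 : F) ∈ {z : F | ∃ t : F₁, (t = 1 ∨ t ∈ (∅ : Finset F₁)) ∧ (t : F) = z} :=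
      ⟨1, Or.inl rfl, rfl⟩
    have h3 := Submodule.smul_mem _ z (Submodule.subset_span (R := F) h)
    rwa [smul_eq_mul, mul_one] at h3
  · refine ⟨(hθ j).1, fun P hP G hG => ?_⟩
    rcases (hθ j).2 P hP G hG with h0 | ⟨s, hs, hs0, hle⟩
    · exact Or.inl h0
    · refine Or.inr ⟨1, Finset.mem_singleton_self _, one_ne_zero, ?_⟩
      rw [Nat.cast_zero, zero_mul, mul_zero, sub_zero] at hle
      have h3 : (0 : ℤ) ≤ P.ord (θ j G) := by exact_mod_cast hle
      have h4 : Pool.Agent.U192.NM.pol (∅ : Finset F₁) P = 0 := by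
        unfold Pool.Agent.U192.NM.pol
        rw [Finset.sup_empty]
        rfl
      rw [h4, P.ord_one, Nat.cast_zero, mul_zero, add_zero]
      exact h3

section

variable {K L : Type} [Field K] [Field L] [Algebra ℂ K] [Algebra ℂ L] [Algebra K L]
  [IsScalarTower ℂ K L] [FiniteDimensional K L] [Algebra.EssFiniteType ℂ K]
  [Algebra.EssFiniteType ℂ L] (M T : IntermediateField ℂ L)

/-- the Kodaira dimension of `W` is at most `dim M + κ(T)` -/
theorem fac_abs (hsup : M ⊔ T = ⊤) {c r b : ℕ} (hM : Algebra.trdeg ℂ M = c)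
    (hT : Algebra.trdeg ℂ T = r) (hL : Algebra.trdeg ℂ L = (c + r : ℕ))
    (h : PairKod ℂ K (c + r) (fun _ => 0) (c + b)) : PairKod ℂ T r (fun _ => 0) b := by
  have eM : Algebra.EssFiniteType ℂ M := Pool.Agent.N999.SX.ess_any M
  have eT : Algebra.EssFiniteType ℂ T := Pool.Agent.N999.SX.ess_any T
  have hK : Algebra.trdeg ℂ K = (c + r : ℕ) := Pool.Agent.Y184.NT.trdeg_below (K := L) hL
  have h1 : PairKod ℂ L (c + r) (fun _ => 0) (c + b) := up hK h
  have h2 := rest (k := ℂ) (M := M) (L := L) hM (Pool.Agent.Y174.trdeg_LK hM hL) h1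
  rw [Nat.add_sub_cancel_left] at h2
  exact desc hsup hM hT hL h2

/-- the Kodaira dimension of the generic fibre of `W ⇢ Z` is at most `dim M - dim Z + κ(T)`, if
`V ⇢ Z` factors through `M` -/
theorem fac_rel (hsup : M ⊔ T = ⊤) {c r : ℕ} (hM : Algebra.trdeg ℂ M = c)
    (hT : Algebra.trdeg ℂ T = r) (hL : Algebra.trdeg ℂ L = (c + r : ℕ)) (Z : IntermediateField ℂ K)
    {p f q : ℕ} (hp : Algebra.trdeg ℂ Z = p) (hf : Algebra.trdeg Z K = f)
    (hZ : ∀ z ∈ Z, algebraMap K L z ∈ M) (hq : KodGe Z K f (fun _ => False) q) :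
    PairKod ℂ T r (fun _ => 0) (q - (c - p)) ∧ p ≤ c := by
  classical
  have eM : Algebra.EssFiniteType ℂ M := Pool.Agent.N999.SX.ess_any M
  have eT : Algebra.EssFiniteType ℂ T := Pool.Agent.N999.SX.ess_any T
  have eZ : Algebra.EssFiniteType ℂ Z := Pool.Agent.N999.SX.ess_any Z
  have eML : Algebra.EssFiniteType M L := Algebra.EssFiniteType.of_comp ℂ M L
  have hML : Algebra.trdeg M L = r := Pool.Agent.Y174.trdeg_LK hM hL
  obtain ⟨M', hM'⟩ : ∃ M' : IntermediateField M L,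
    M' = IntermediateField.adjoin M (Set.range (algebraMap Z L)) := ⟨_, rfl⟩
  have hbot : M' = ⊥ := by
    rw [hM', IntermediateField.adjoin_eq_bot_iff]
    rintro _ ⟨z, rfl⟩
    exact IntermediateField.mem_bot.2 ⟨⟨algebraMap K L z, hZ z z.2⟩, rfl⟩
  have he0 : Algebra.trdeg M M' = (0 : ℕ) := by
    rw [Nat.cast_zero, trdeg_eq_zero_iff, hbot]
    refine ⟨fun z => ?_⟩
    obtain ⟨y, hy⟩ := IntermediateField.mem_bot.1 z.2
    have h1 : z = algebraMap M (⊥ : IntermediateField M L) y := Subtype.ext hy.symm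
    rw [h1]
    exact isAlgebraic_algebraMap _
  obtain ⟨c', f0, hc, hcd, hef, hf0, hG⟩ := chain2 (E := Z) (K := K) (U := M) (L := L) hM hML hp hf
    M' hM' he0 hq
  have h1 := iit_triv hsup hM hT hL M' 0 f0 0 _ (Pool.Agent.N999.SX.ess_any M') he0 hf0
    (Or.inl rfl) kd_point hG
  rw [hef, Nat.zero_add] at h1
  obtain rfl : p = c' := by omega
  exact ⟨desc hsup hM hT hL h1, hcd⟩

end

end Pool.Agent.U192.PZ
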